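import Pool.Agent.Lib.MP_391708_nt.QPA.FL

/-!
# A uniform lower bound sieve for `k` linear forms (Brun-Hooley)

`specSieveK`: for every `k` there is `C` such that for all integers `a_i, b_i` (`i < k`, no bound on their size), all
real `z ≥ 2` and all `X ≥ z ^ C`: if for every prime `p < z` some `y` has `p ∤ ∏ (a_i y + b_i)`, then at least
`X / (C (1 + log z)) ^ C` of the `1 ≤ y ≤ X` are such that `∏ (a_i y + b_i)` has no prime factor `< z`.
-/

set_option autoImplicit false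

namespace Pool.Agent.Lib.MP_3efbeb_nt.SV

open Finset
open scoped Classical
open Pool.Agent.Lib.MP391708.QPA (PB Rough rInd)
open Pool.Agent.Lib.MP391708.QPA.FL

/-- The statement of the sieve. -/
def SpecSieveK : Prop := ∀ k : ℕ, ∃ C : ℕ, ∀ (a b : Fin k → ℤ) (z : ℝ) (X : ℕ), 2 ≤ z →
  z ^ C ≤ (X : ℝ) →
  (∀ p : ℕ, p.Prime → (p : ℝ) < z → ∃ y : ℤ, ¬ (p : ℤ) ∣ ∏ i, (a i * y + b i)) →
  (X : ℝ) ≤ (C * (1 + Real.log z)) ^ C * (((Icc 1 X).filter (fun y : ℕ => ∀ p : ℕ, p.Prime →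
    (p : ℝ) < z → ¬ (p : ℤ) ∣ ∏ i, (a i * (y : ℤ) + b i))).card : ℝ)

namespace SieveM

/-! ## The fundamental lemma, lower bound -/

lemma one_sub_ge' {k : ℕ} {g : ℝ} (h0 : 0 ≤ g) (h1 : g ≤ k / (k + 1)) :
    Real.exp (-((k + 1) * g)) ≤ 1 - g := by
  have hk : (0 : ℝ) ≤ k := Nat.cast_nonneg _
  have hk1 : (0 : ℝ) < k + 1 := by linarith
  have h2 : g * (k + 1) ≤ k := (le_div_iff₀ hk1).1 h1
  have h3 : 0 < 1 - g := by nlinarith
  rw [Real.exp_neg, inv_le_comm₀ (Real.exp_pos _) h3]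
  have h4 : 1 + (k + 1) * g ≤ Real.exp ((k + 1) * g) := by
    linarith [Real.add_one_le_exp ((k + 1) * g)]
  refine le_trans ?_ h4
  rw [inv_le_iff_one_le_mul₀ h3]
  nlinarith

lemma sum_Blk_le' (z : ℝ) (k j : ℕ) : ∑ p ∈ Blk z j, k / (p : ℝ) ≤ 4 * k := by
  have h := sum_Blk_le z j
  have e : ∑ p ∈ Blk z j, k / (p : ℝ) = (k / 2) * ∑ p ∈ Blk z j, 2 / (p : ℝ) := by
    rw [mul_sum]
    refine sum_congr rfl fun p _ => ?_
    ring
  rw [e]
  have hk : (0 : ℝ) ≤ (k : ℝ) / 2 := by positivity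
  calc (k : ℝ) / 2 * ∑ p ∈ Blk z j, 2 / (p : ℝ) ≤ (k : ℝ) / 2 * 8 :=
        mul_le_mul_of_nonneg_left h hk
    _ = 4 * k := by ring

/-- the constant -/
noncomputable def Mk (k : ℕ) : ℝ := Real.exp (4 * k * Real.exp 1 + 4 * k * (k + 1))

/-- the hypotheses on the density -/
def Dens (k : ℕ) (g : ℕ → ℝ) : Prop :=
  ∀ p : ℕ, p.Prime → 0 ≤ g p ∧ g p ≤ k / (p : ℝ) ∧ g p ≤ k / (k + 1)

lemma block_bounds' {k : ℕ} {z : ℝ} {g : ℕ → ℝ} (hg : Dens k g) (j n : ℕ) :
    Real.exp (-(4 * k * (k + 1))) ≤ ∏ p ∈ Blk z j, (1 - g p) ∧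
    S (del n) g (Blk z j) ≤ Mk k * Real.exp (-(n : ℝ)) * ∏ p ∈ Blk z j, (1 - g p) := by
  have hgB : ∀ p ∈ Blk z j, 0 ≤ g p ∧ g p ≤ k / (p : ℝ) ∧ g p ≤ k / (k + 1) :=
    fun p hp => hg p (mem_Blk.1 hp).1
  have hk : (0 : ℝ) ≤ k := Nat.cast_nonneg _
  have hG : ∑ p ∈ Blk z j, g p ≤ 4 * k :=
    (Finset.sum_le_sum fun p hp => (hgB p hp).2.1).trans (sum_Blk_le' z k j)
  have hG0 : 0 ≤ ∑ p ∈ Blk z j, g p := Finset.sum_nonneg fun p hp => (hgB p hp).1
  have h1 : Real.exp (-(4 * k * (k + 1))) ≤ ∏ p ∈ Blk z j, (1 - g p) := by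
    calc Real.exp (-(4 * k * (k + 1))) ≤ Real.exp (∑ p ∈ Blk z j, -((k + 1) * g p)) := by
          rw [Finset.sum_neg_distrib, ← Finset.mul_sum]
          exact Real.exp_le_exp.2 (by nlinarith)
      _ = ∏ p ∈ Blk z j, Real.exp (-((k + 1) * g p)) := Real.exp_sum _ _
      _ ≤ _ := Finset.prod_le_prod (fun _ _ => (Real.exp_pos _).le)
          (fun p hp => one_sub_ge' (hgB p hp).1 (hgB p hp).2.2)
  refine ⟨h1, ?_⟩
  have h2 := (S_del_le (fun p hp => (hgB p hp).1) n).2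
  have h3 : (∑ p ∈ Blk z j, g p) ^ n / n.factorial ≤ (4 * k) ^ n / n.factorial :=
    div_le_div_of_nonneg_right (pow_le_pow_left₀ hG0 hG n) (by positivity)
  have h4 : (4 * k : ℝ) ^ n / n.factorial ≤
      Real.exp (4 * k * Real.exp 1) * Real.exp (-(n : ℝ)) := by
    have h5 := Real.pow_div_factorial_le_exp (4 * k * Real.exp 1) (by positivity) n
    have h6 : (4 * k : ℝ) ^ n / n.factorial =
        ((4 * k * Real.exp 1) ^ n / n.factorial) * Real.exp (-(n : ℝ)) := by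
      rw [mul_pow (4 * (k : ℝ)) (Real.exp 1) n, ← Real.exp_nat_mul, mul_one, div_mul_eq_mul_div,
        mul_assoc, ← Real.exp_add, add_neg_cancel, Real.exp_zero, mul_one]
    rw [h6]
    exact mul_le_mul_of_nonneg_right h5 (Real.exp_pos _).le
  refine (h2.trans (h3.trans h4)).trans ?_
  have h7 : Real.exp (4 * k * Real.exp 1) = Mk k * Real.exp (-(4 * k * (k + 1))) := by
    unfold Mk; rw [← Real.exp_add]; congr 1; ring
  rw [h7]
  calc Mk k * Real.exp (-(4 * k * (k + 1))) * Real.exp (-(n : ℝ)) =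
        Mk k * Real.exp (-(n : ℝ)) * Real.exp (-(4 * k * (k + 1))) := by ring
    _ ≤ _ := mul_le_mul_of_nonneg_left h1 (mul_nonneg (Real.exp_pos _).le (Real.exp_pos _).le)

lemma sum_rho_le' (M : ℝ) (hM : 0 ≤ M) (b K : ℕ) :
    ∑ j ∈ range (K + 1), M * Real.exp (-((2 * (b + (K - j)) + 1 : ℕ) : ℝ)) ≤
      M * Real.exp (-(b : ℝ)) := by
  have h := sum_rho_le b K
  have hMc : 0 < Mc := Real.exp_pos _
  have e : ∑ j ∈ range (K + 1), M * Real.exp (-((2 * (b + (K - j)) + 1 : ℕ) : ℝ)) =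
      (M / Mc) * ∑ j ∈ range (K + 1), Mc * Real.exp (-((2 * (b + (K - j)) + 1 : ℕ) : ℝ)) := by
    rw [mul_sum]
    refine sum_congr rfl fun j _ => ?_
    rw [← mul_assoc, div_mul_cancel₀ _ hMc.ne']
  rw [e]
  calc (M / Mc) * _ ≤ (M / Mc) * (Mc * Real.exp (-(b : ℝ))) :=
        mul_le_mul_of_nonneg_left h (div_nonneg hM hMc.le)
    _ = M * Real.exp (-(b : ℝ)) := by rw [← mul_assoc, div_mul_cancel₀ _ hMc.ne']

theorem flk (k b : ℕ) (hb : Mk k * Real.exp (-(b : ℝ)) ≤ 1 / 2) (z : ℝ) (hz : 2 ≤ z)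
    (T : Finset ℕ) (v : ℕ → ℕ) (om : ℕ → ℝ) (X : ℝ) (g : ℕ → ℝ) (hX : 0 ≤ X)
    (hom : ∀ i ∈ T, 0 ≤ om i) (hg : Dens k g) :
    1 / 2 * X * (∏ p ∈ PB z, (1 - g p)) - 2 * (1 + Real.log z) *
        ∑ δ ∈ (Icc 1 ⌊z ^ (8 * b + 16)⌋₊).filter
          (fun δ => Squarefree δ ∧ ∀ p : ℕ, p.Prime → p ∣ δ → (p : ℝ) < z),
          |(∑ i ∈ T.filter (fun i => δ ∣ v i), om i) - X * ∏ p ∈ δ.primeFactors, g p|
      ≤ ∑ i ∈ T, om i * rInd z (v i) := by
  classical
  have hM : 0 < Mk k := Real.exp_pos _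
  obtain ⟨K, hK1, hK2⟩ := exists_K hz
  have hU := biUnion_Blk hK2
  have hdis := Blk_disjoint z
  have hprime : ∀ j, ∀ p ∈ Blk z j, p.Prime := fun j p hp => (mem_Blk.1 hp).1
  set D := (Icc 1 ⌊z ^ (8 * b + 16)⌋₊).filter
      (fun δ => Squarefree δ ∧ ∀ p : ℕ, p.Prime → p ∣ δ → (p : ℝ) < z) with hDdef
  set R := ∑ δ ∈ D, |(∑ i ∈ T.filter (fun i => δ ∣ v i), om i)
    - X * ∏ p ∈ δ.primeFactors, g p| with hR
  have hR0 : 0 ≤ R := Finset.sum_nonneg fun _ _ => abs_nonneg _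
  -- membership in `D`
  have hDmem : ∀ s : Finset ℕ, s ⊆ (range (K + 1)).biUnion (Blk z) →
      (∀ j ∈ range (K + 1), (s ∩ Blk z j).card ≤ 2 * (b + (K - j)) + 1) →
      (∏ p ∈ s, p) ∈ D := by
    intro s hs hc
    have hsp : ∀ p ∈ s, p.Prime ∧ (p : ℝ) < z := by
      intro p hp
      have := hs hp
      rw [hU] at this
      exact mem_PB.1 this
    have hpf : (∏ p ∈ s, p).primeFactors = s := Nat.primeFactors_prod fun p hp => (hsp p hp).1
    have hne : (∏ p ∈ s, p) ≠ 0 := Finset.prod_ne_zero_iff.2 fun p hp => (hsp p hp).1.ne_zero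
    rw [hDdef, Finset.mem_filter, Finset.mem_Icc]
    refine ⟨⟨Nat.pos_of_ne_zero hne, Nat.le_floor ?_⟩, ?_, ?_⟩
    · exact size_le hz hK1 s hs hc
    · refine Finset.squarefree_prod_of_pairwise_isCoprime ?_ ?_
      · intro p hp q hq hpq
        exact Nat.coprime_iff_isRelPrime.1 ((Nat.coprime_primes (hsp p hp).1 (hsp q hq).1).2 hpq)
      · intro p hp; exact (hsp p hp).1.squarefree
    · intro p hp hd
      have : p ∈ (∏ p ∈ s, p).primeFactors := Nat.mem_primeFactors.2 ⟨hp, hd, hne⟩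
      rw [hpf] at this
      exact (hsp p this).2
  set κ : ℕ → ℕ → ℝ := fun j => kap (2 * (b + (K - j))) with hκ
  set w : ℕ → ℕ → ℕ → ℝ := fun l j =>
    if j = l then del (2 * (b + (K - j)) + 1) else kap (2 * (b + (K - j))) with hw
  have hremκ := rem_le (Blk z) hdis hprime (K + 1) κ (fun j n => abs_kap_le _ _) D
    (by
      intro s hs hne
      refine hDmem s hs fun j hj => ?_
      have h1 := Finset.prod_ne_zero_iff.1 hne j hj
      by_contra hcon
      refine h1 ?_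
      rw [hκ]
      simp only
      unfold kap
      rw [if_neg (by omega)]) T v om X g
  have hremw : ∀ l, _ := fun l => rem_le (Blk z) hdis hprime (K + 1) (w l)
    (fun j n => by
      rw [hw]; simp only
      split_ifs
      · exact abs_del_le _ _
      · exact abs_kap_le _ _) D
    (by
      intro s hs hne
      refine hDmem s hs fun j hj => ?_
      have h1 := Finset.prod_ne_zero_iff.1 hne j hj
      by_contra hcon
      refine h1 ?_
      rw [hw]
      simp only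
      split_ifs
      · unfold del
        rw [if_neg (by omega)]
      · unfold kap
        rw [if_neg (by omega)]) T v om X g
  -- the inequalities for each `i`
  have hprodPB : ∀ a : ℕ → ℝ, ∏ p ∈ PB z, (1 - a p) =
      ∏ j ∈ range (K + 1), ∏ p ∈ Blk z j, (1 - a p) := by
    intro a
    rw [← hU, Finset.prod_biUnion]
    intro i _ j _ hij
    exact hdis i j hij
  have hbonf : ∀ (a : ℕ → ℝ), (∀ p, p.Prime → 0 ≤ a p ∧ a p ≤ 1) → ∀ j,
      0 ≤ ∏ p ∈ Blk z j, (1 - a p) ∧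
      ∏ p ∈ Blk z j, (1 - a p) ≤ S (κ j) a (Blk z j) ∧
      S (κ j) a (Blk z j) ≤ ∏ p ∈ Blk z j, (1 - a p) +
        S (del (2 * (b + (K - j)) + 1)) a (Blk z j) ∧
      0 ≤ S (del (2 * (b + (K - j)) + 1)) a (Blk z j) := by
    intro a ha j
    have haB : ∀ p ∈ Blk z j, 0 ≤ a p ∧ a p ≤ 1 := fun p hp => ha p (hprime j p hp)
    have h1 := bonf haB (2 * (b + (K - j)))
    have h2 : ((-1 : ℝ)) ^ (2 * (b + (K - j))) = 1 := by rw [pow_mul]; norm_num
    rw [h2, one_mul] at h1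
    refine ⟨(prod_one_sub_mem haB).1, ?_, ?_, (S_del_le (fun p hp => (haB p hp).1) _).1⟩
    · linarith [h1.1]
    · linarith [h1.2]
  have hlow : ∀ (a : ℕ → ℝ), (∀ p, p.Prime → 0 ≤ a p ∧ a p ≤ 1) →
      ∏ j ∈ range (K + 1), S (κ j) a (Blk z j) -
        ∑ l ∈ range (K + 1), ∏ j ∈ range (K + 1), S (w l j) a (Blk z j)
      ≤ ∏ j ∈ range (K + 1), ∏ p ∈ Blk z j, (1 - a p) := by
    intro a ha
    have h1 := prod_low (fun j => ∏ p ∈ Blk z j, (1 - a p)) (fun j => S (κ j) a (Blk z j))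
      (fun j => S (del (2 * (b + (K - j)) + 1)) a (Blk z j))
      (fun j => (hbonf a ha j).1) (fun j => (hbonf a ha j).2.1)
      (fun j => (hbonf a ha j).2.2.1) (fun j => (hbonf a ha j).2.2.2) (K + 1)
    have h2 : ∑ l ∈ range (K + 1), ∏ j ∈ range (K + 1), S (w l j) a (Blk z j) =
        ∑ l ∈ range (K + 1), ∏ j ∈ range (K + 1),
          (if j = l then S (del (2 * (b + (K - j)) + 1)) a (Blk z j) else
            S (κ j) a (Blk z j)) := by
      refine Finset.sum_congr rfl fun l _ => Finset.prod_congr rfl fun j _ => ?_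
      rw [hw, hκ]
      simp only
      split_ifs <;> rfl
    rw [h2]
    exact h1
  have hupp : ∀ (a : ℕ → ℝ), (∀ p, p.Prime → 0 ≤ a p ∧ a p ≤ 1) →
      ∏ j ∈ range (K + 1), ∏ p ∈ Blk z j, (1 - a p) ≤
        ∏ j ∈ range (K + 1), S (κ j) a (Blk z j) := by
    intro a ha
    exact Finset.prod_le_prod (fun j _ => (hbonf a ha j).1) (fun j _ => (hbonf a ha j).2.1)
  have hind : ∀ i, ∀ p : ℕ, p.Prime → 0 ≤ (if p ∣ v i then (1 : ℝ) else 0) ∧
      (if p ∣ v i then (1 : ℝ) else 0) ≤ 1 := by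
    intro i p _
    split_ifs <;> norm_num
  have hk0 : (0 : ℝ) ≤ k := Nat.cast_nonneg _
  have hg1 : ∀ p, p.Prime → 0 ≤ g p ∧ g p ≤ 1 := fun p hp =>
    ⟨(hg p hp).1, (hg p hp).2.2.trans (by rw [div_le_one (by linarith)]; linarith)⟩
  set A := ∑ i ∈ T, om i * rInd z (v i) with hA
  set Y := ∏ j ∈ range (K + 1), S (κ j) g (Blk z j) with hY
  set W := ∑ l ∈ range (K + 1), ∏ j ∈ range (K + 1), S (w l j) g (Blk z j) with hW
  set PG := ∏ p ∈ PB z, (1 - g p) with hPG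
  have hPG' : PG = ∏ j ∈ range (K + 1), ∏ p ∈ Blk z j, (1 - g p) := hprodPB g
  have hPG0 : 0 ≤ PG := by
    rw [hPG']; exact Finset.prod_nonneg fun j _ => (hbonf g hg1 j).1
  have hAlow : X * Y - X * W - (K + 2) * R ≤ A := by
    have h1 : ∑ i ∈ T, om i * (∏ j ∈ range (K + 1),
        S (κ j) (fun p => if p ∣ v i then 1 else 0) (Blk z j) -
        ∑ l ∈ range (K + 1), ∏ j ∈ range (K + 1),
          S (w l j) (fun p => if p ∣ v i then 1 else 0) (Blk z j)) ≤ A := by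
      refine Finset.sum_le_sum fun i hi => mul_le_mul_of_nonneg_left ?_ (hom i hi)
      rw [rInd_eq, hprodPB (fun p => if p ∣ v i then 1 else 0)]
      exact hlow _ (hind i)
    have h2 : ∑ i ∈ T, om i * (∏ j ∈ range (K + 1),
        S (κ j) (fun p => if p ∣ v i then 1 else 0) (Blk z j) -
        ∑ l ∈ range (K + 1), ∏ j ∈ range (K + 1),
          S (w l j) (fun p => if p ∣ v i then 1 else 0) (Blk z j)) =
        (∑ i ∈ T, om i * ∏ j ∈ range (K + 1),
          S (κ j) (fun p => if p ∣ v i then 1 else 0) (Blk z j)) -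
        ∑ l ∈ range (K + 1), ∑ i ∈ T, om i * ∏ j ∈ range (K + 1),
          S (w l j) (fun p => if p ∣ v i then 1 else 0) (Blk z j) := by
      rw [Finset.sum_comm, ← Finset.sum_sub_distrib]
      refine Finset.sum_congr rfl fun i _ => ?_
      rw [mul_sub, Finset.mul_sum]
    rw [h2] at h1
    have h3 := (abs_le.1 hremκ).1
    have h4 : ∑ l ∈ range (K + 1), ∑ i ∈ T, om i * ∏ j ∈ range (K + 1),
          S (w l j) (fun p => if p ∣ v i then 1 else 0) (Blk z j) ≤
        ∑ l ∈ range (K + 1), (X * ∏ j ∈ range (K + 1), S (w l j) g (Blk z j) + R) := by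
      refine Finset.sum_le_sum fun l _ => ?_
      have := (abs_le.1 (hremw l)).2
      linarith
    rw [Finset.sum_add_distrib, ← Finset.mul_sum, Finset.sum_const, Finset.card_range,
      nsmul_eq_mul] at h4
    push_cast at h4
    linarith
  -- real analysis
  set ρ : ℕ → ℝ := fun j => Mk k * Real.exp (-((2 * (b + (K - j)) + 1 : ℕ) : ℝ)) with hρ
  have hρ0 : ∀ j, 0 ≤ ρ j := fun j => mul_nonneg hM.le (Real.exp_pos _).le
  set η := ∑ j ∈ range (K + 1), ρ j with hη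
  have hη0 : 0 ≤ η := Finset.sum_nonneg fun j _ => hρ0 j
  have hη1 : η ≤ 1 / 2 := (sum_rho_le' (Mk k) hM.le b K).trans hb
  have hYnn : ∀ j, 0 ≤ S (κ j) g (Blk z j) := fun j =>
    (hbonf g hg1 j).1.trans (hbonf g hg1 j).2.1
  have hYlow : PG ≤ Y := by rw [hPG']; exact hupp g hg1
  have hY0 : 0 ≤ Y := hPG0.trans hYlow
  have hWup : W ≤ η * Y := by
    rw [hW, hη, Finset.sum_mul]
    refine Finset.sum_le_sum fun l hl => ?_
    rw [hY, ← Finset.mul_prod_erase _ _ hl, ← Finset.mul_prod_erase _ _ hl, ← mul_assoc]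
    have e1 : ∏ j ∈ (range (K + 1)).erase l, S (w l j) g (Blk z j) =
        ∏ j ∈ (range (K + 1)).erase l, S (κ j) g (Blk z j) := by
      refine Finset.prod_congr rfl fun j hj => ?_
      rw [hw]; simp only
      rw [if_neg (Finset.ne_of_mem_erase hj)]
    rw [e1]
    refine mul_le_mul_of_nonneg_right ?_ (Finset.prod_nonneg fun j _ => hYnn j)
    have e2 : w l l = del (2 * (b + (K - l)) + 1) := by
      rw [hw]
      exact if_pos rfl
    rw [e2]
    refine (block_bounds' hg (z := z) l (2 * (b + (K - l)) + 1)).2.trans ?_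
    exact mul_le_mul_of_nonneg_left (hbonf g hg1 l).2.1 (hρ0 l)
  have hK3 := K_le hK1
  have hKR : ((K : ℝ) + 2) * R ≤ 2 * (1 + Real.log z) * R := mul_le_mul_of_nonneg_right hK3 hR0
  have h1 : X * W ≤ X * (1 / 2 * Y) := by
    refine mul_le_mul_of_nonneg_left (hWup.trans ?_) hX
    exact mul_le_mul_of_nonneg_right hη1 hY0
  have h2 : X * PG ≤ X * Y := mul_le_mul_of_nonneg_left hYlow hX
  linarith

/-- lower bound for the product -/
lemma prod_ge (k : ℕ) {z : ℝ} (hz : 2 ≤ z) {g : ℕ → ℝ} (hg : Dens k g) :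
    1 ≤ (4 * (1 + Real.log z)) ^ (8 * k * (k + 1)) * ∏ p ∈ PB z, (1 - g p) := by
  obtain ⟨K, hK1, hK2⟩ := exists_K hz
  have hprod : ∏ p ∈ PB z, (1 - g p) = ∏ j ∈ range (K + 1), ∏ p ∈ Blk z j, (1 - g p) := by
    rw [← biUnion_Blk hK2, Finset.prod_biUnion]
    intro i _ j _ hij
    exact Blk_disjoint z i j hij
  have h1 : Real.exp (-(4 * k * (k + 1))) ^ (K + 1) ≤ ∏ p ∈ PB z, (1 - g p) := by
    rw [hprod, ← Finset.card_range (K + 1), ← Finset.prod_const, Finset.card_range]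
    exact Finset.prod_le_prod (fun _ _ => (Real.exp_pos _).le)
      (fun j _ => (block_bounds' hg (z := z) j 0).1)
  have hlog : 0 ≤ Real.log z := Real.log_nonneg (by linarith)
  have h2 : (2 : ℝ) ^ (K + 1) ≤ 4 * (1 + Real.log z) := by
    have h3 : Real.log ((2 : ℝ) ^ 2 ^ K) ≤ Real.log z := Real.log_le_log (by positivity) hK1
    rw [Real.log_pow] at h3
    have h4 := Real.log_two_gt_d9
    push_cast at h3
    have h5 : (2 : ℝ) ^ K * (1 / 2) ≤ (2 : ℝ) ^ K * Real.log 2 :=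
      mul_le_mul_of_nonneg_left (by linarith) (by positivity)
    rw [pow_succ]
    linarith
  have h3 : Real.exp (4 * k * (k + 1)) ≤ 2 ^ (8 * k * (k + 1)) := by
    have h4 : Real.exp (4 * k * (k + 1)) = Real.exp 1 ^ (4 * k * (k + 1)) := by
      rw [← Real.exp_nat_mul]
      congr 1
      push_cast
      ring
    have h6 : (2 : ℝ) ^ (8 * k * (k + 1)) = (2 ^ 2) ^ (4 * k * (k + 1)) := by
      rw [← pow_mul]
      congr 1
      ring
    rw [h4, h6]
    refine pow_le_pow_left₀ (Real.exp_pos _).le ?_ _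
    have := Real.exp_one_lt_d9
    linarith
  have h4 : Real.exp (4 * k * (k + 1)) ^ (K + 1) ≤ (4 * (1 + Real.log z)) ^ (8 * k * (k + 1)) := by
    calc Real.exp (4 * k * (k + 1)) ^ (K + 1) ≤ ((2 : ℝ) ^ (8 * k * (k + 1))) ^ (K + 1) :=
          pow_le_pow_left₀ (Real.exp_pos _).le h3 _
      _ = ((2 : ℝ) ^ (K + 1)) ^ (8 * k * (k + 1)) := by rw [← pow_mul, ← pow_mul, mul_comm]
      _ ≤ _ := pow_le_pow_left₀ (by positivity) h2 _
  have h5 : (1 : ℝ) = Real.exp (4 * k * (k + 1)) ^ (K + 1) *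
      Real.exp (-(4 * k * (k + 1))) ^ (K + 1) := by
    rw [← mul_pow, ← Real.exp_add, add_neg_cancel, Real.exp_zero, one_pow]
  calc (1 : ℝ) = _ := h5
    _ ≤ _ := mul_le_mul h4 h1 (by positivity) (by positivity)

/-! ## Roots of the product of the forms -/

/-- the value of the product of the forms in a commutative ring -/
def val {k : ℕ} (a b : Fin k → ℤ) {R : Type*} [CommRing R] (x : R) : R :=
  ∏ i, ((a i : R) * x + (b i : R))

lemma val_int {k : ℕ} (a b : Fin k → ℤ) (y : ℤ) : val a b y = ∏ i, (a i * y + b i) := by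
  simp [val]

lemma map_val {k : ℕ} (a b : Fin k → ℤ) {R R' : Type*} [CommRing R] [CommRing R'] (f : R →+* R')
    (x : R) : f (val a b x) = val a b (f x) := by
  simp [val, map_prod]

/-- the roots modulo `n` -/
noncomputable def rts {k : ℕ} (a b : Fin k → ℤ) (n : ℕ) [NeZero n] : Finset (ZMod n) :=
  Finset.univ.filter (fun x => val a b x = 0)

/-- the number of roots -/
noncomputable def nu {k : ℕ} (a b : Fin k → ℤ) (n : ℕ) : ℕ :=
  Nat.card {x : ZMod n // val a b x = 0}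

lemma nu_eq {k : ℕ} (a b : Fin k → ℤ) (n : ℕ) [NeZero n] : nu a b n = (rts a b n).card := by
  unfold nu rts
  rw [Nat.card_eq_fintype_card, Fintype.card_subtype]

lemma nu_one {k : ℕ} (a b : Fin k → ℤ) : nu a b 1 = 1 := by
  rw [nu_eq]
  have : rts a b 1 = Finset.univ := by
    ext x
    simp only [rts, mem_filter, mem_univ, true_and, iff_true]
    exact Subsingleton.elim _ _
  rw [this]
  rfl

lemma nu_mul {k : ℕ} (a b : Fin k → ℤ) {m n : ℕ} (h : Nat.Coprime m n) :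
    nu a b (m * n) = nu a b m * nu a b n := by
  unfold nu
  rw [← Nat.card_prod]
  let e := ZMod.chineseRemainder h
  refine Nat.card_congr ⟨fun x => (⟨(e x.1).1, ?_⟩, ⟨(e x.1).2, ?_⟩),
    fun x => ⟨e.symm (x.1.1, x.2.1), ?_⟩, ?_, ?_⟩
  · have h1 := map_val a b ((RingHom.fst _ _).comp e.toRingHom) x.1
    rw [x.2, map_zero] at h1
    exact h1.symm
  · have h1 := map_val a b ((RingHom.snd _ _).comp e.toRingHom) x.1
    rw [x.2, map_zero] at h1
    exact h1.symm
  · have h1 := map_val a b e.symm.toRingHom (x.1.1, x.2.1)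
    have h2 : val a b (x.1.1, x.2.1) = 0 := by
      ext
      · have h3 := map_val a b (RingHom.fst (ZMod m) (ZMod n)) (x.1.1, x.2.1)
        simp only [RingHom.coe_fst] at h3
        rw [h3, x.1.2]
        rfl
      · have h3 := map_val a b (RingHom.snd (ZMod m) (ZMod n)) (x.1.1, x.2.1)
        simp only [RingHom.coe_snd] at h3
        rw [h3, x.2.2]
        rfl
    rw [h2, map_zero] at h1
    exact h1.symm
  · intro x
    ext
    simp
  · intro x
    ext <;> simp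

lemma nu_squarefree {k : ℕ} (a b : Fin k → ℤ) {n : ℕ} (hn : Squarefree n) :
    nu a b n = ∏ p ∈ n.primeFactors, nu a b p := by
  induction n using Nat.recOnPosPrimePosCoprime with
  | prime_pow p m hp hm =>
    have : m = 1 := by
      by_contra hne
      have h2 : 2 ≤ m := by omega
      have h3 : p * p ∣ p ^ m := by
        rw [← sq]
        exact pow_dvd_pow p h2
      exact hp.one_lt.ne' (Nat.isUnit_iff.1 (hn p h3))
    subst this
    rw [pow_one, hp.primeFactors, prod_singleton]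
  | zero => exact absurd hn not_squarefree_zero
  | one => rw [nu_one]; simp
  | coprime m n hm hn' hmn ihm ihn =>
    have h1 := Nat.squarefree_mul hmn |>.1 hn
    rw [nu_mul a b hmn, ihm h1.1, ihn h1.2, Nat.Coprime.primeFactors_mul hmn,
      prod_union hmn.disjoint_primeFactors]

lemma nu_le {k : ℕ} (a b : Fin k → ℤ) {n : ℕ} (hn : 0 < n) : nu a b n ≤ n := by
  have : NeZero n := ⟨hn.ne'⟩
  rw [nu_eq]
  refine (card_le_univ _).trans ?_
  rw [ZMod.card]

lemma val_zmod {k : ℕ} (a b : Fin k → ℤ) (n : ℕ) (y : ℤ) :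
    val a b (y : ZMod n) = 0 ↔ (n : ℤ) ∣ ∏ i, (a i * y + b i) := by
  have h := map_val a b (Int.castRingHom (ZMod n)) y
  simp only [eq_intCast] at h
  rw [← h, val_int, ZMod.intCast_zmod_eq_zero_iff_dvd]

lemma nu_prime {k : ℕ} (a b : Fin k → ℤ) {p : ℕ} (hp : p.Prime)
    (h : ∃ y : ℤ, ¬ (p : ℤ) ∣ ∏ i, (a i * y + b i)) : nu a b p ≤ k ∧ nu a b p + 1 ≤ p := by
  have : Fact p.Prime := ⟨hp⟩
  have : NeZero p := ⟨hp.ne_zero⟩
  obtain ⟨y, hy⟩ := h
  have hy' : val a b (y : ZMod p) ≠ 0 := fun h => hy ((val_zmod a b p y).1 h)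
  rw [nu_eq]
  constructor
  · have hsub : rts a b p ⊆ Finset.univ.image (fun i : Fin k => -(b i : ZMod p) / (a i : ZMod p)) := by
      intro x hx
      have hx' : val a b x = 0 := (mem_filter.1 hx).2
      unfold val at hx' hy'
      rw [prod_eq_zero_iff] at hx'
      obtain ⟨i, -, hi⟩ := hx'
      rw [mem_image]
      refine ⟨i, mem_univ i, ?_⟩
      have ha : (a i : ZMod p) ≠ 0 := by
        intro ha
        rw [ha, zero_mul, zero_add] at hi
        apply hy'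
        refine prod_eq_zero (mem_univ i) ?_
        rw [ha, hi]
        ring
      rw [div_eq_iff ha]
      linear_combination -hi
    refine (card_le_card hsub).trans (card_image_le.trans ?_)
    rw [card_univ, Fintype.card_fin]
  · have hsub : rts a b p ⊆ Finset.univ.erase (y : ZMod p) := by
      intro x hx
      rw [mem_erase]
      refine ⟨?_, mem_univ x⟩
      rintro rfl
      exact hy' (mem_filter.1 hx).2
    have := card_le_card hsub
    rw [card_erase_of_mem (mem_univ _), card_univ, ZMod.card] at this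
    have := hp.one_lt
    omega

/-- the number of `y ≤ X` in a residue class -/
lemma card_class (n X : ℕ) (hn : 0 < n) (x : ZMod n) :
    |(((Icc 1 X).filter (fun y : ℕ => (y : ZMod n) = x)).card : ℝ) - X / n| ≤ 1 := by
  have : NeZero n := ⟨hn.ne'⟩
  have h1 : (Icc 1 X).filter (fun y : ℕ => (y : ZMod n) = x) =
      (Ioc 0 X).filter (fun y : ℕ => y ≡ x.val [MOD n]) := by
    ext y
    rw [mem_filter, mem_filter, mem_Icc, mem_Ioc, ← ZMod.natCast_eq_natCast_iff, ZMod.natCast_zmod_val]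
    rfl
  rw [h1]
  have h2 := Nat.Ioc_filter_modEq_card 0 X hn x.val
  have hnQ : (0 : ℚ) < n := by exact_mod_cast hn
  have hXQ : (0 : ℚ) ≤ (X : ℚ) := Nat.cast_nonneg _
  have h3 := Int.floor_le (((X : ℚ) - (x.val : ℚ)) / (n : ℚ))
  have h4 := Int.lt_floor_add_one (((X : ℚ) - (x.val : ℚ)) / (n : ℚ))
  have h5 := Int.floor_le ((((0 : ℕ) : ℚ) - (x.val : ℚ)) / (n : ℚ))
  have h6 := Int.lt_floor_add_one ((((0 : ℕ) : ℚ) - (x.val : ℚ)) / (n : ℚ))
  set A := ⌊((X : ℚ) - (x.val : ℚ)) / (n : ℚ)⌋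
  set B := ⌊(((0 : ℕ) : ℚ) - (x.val : ℚ)) / (n : ℚ)⌋
  have hAB : 0 ≤ A - B := by
    have : B ≤ A := by
      apply Int.floor_le_floor
      apply div_le_div_of_nonneg_right _ hnQ.le
      push_cast
      linarith
    linarith
  rw [max_eq_left hAB] at h2
  have e : ((X : ℚ) - (x.val : ℚ)) / (n : ℚ) - (((0 : ℕ) : ℚ) - (x.val : ℚ)) / (n : ℚ) = X / n := by
    push_cast
    ring
  have h7 : (((((Ioc 0 X).filter (fun y : ℕ => y ≡ x.val [MOD n])).card : ℤ) : ℚ)) = (A : ℚ) - B := by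
    rw [h2]
    push_cast
    ring
  have h8 : |((((Ioc 0 X).filter (fun y : ℕ => y ≡ x.val [MOD n])).card : ℚ)) - X / n| ≤ 1 := by
    rw [abs_le]
    push_cast at h7
    constructor
    · rw [h7, ← e]; linarith
    · rw [h7, ← e]; linarith
  have h9 : ((|((((Ioc 0 X).filter (fun y : ℕ => y ≡ x.val [MOD n])).card : ℚ)) - X / n| : ℚ) : ℝ)
      ≤ ((1 : ℚ) : ℝ) := by exact_mod_cast h8
  push_cast at h9
  exact h9

lemma card_roots {k : ℕ} (a b : Fin k → ℤ) (n X : ℕ) (hn : 0 < n) :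
    |(((Icc 1 X).filter (fun y : ℕ => (n : ℤ) ∣ ∏ i, (a i * (y : ℤ) + b i))).card : ℝ) -
      X * ((nu a b n : ℝ) / n)| ≤ n := by
  have : NeZero n := ⟨hn.ne'⟩
  have h1 : (Icc 1 X).filter (fun y : ℕ => (n : ℤ) ∣ ∏ i, (a i * (y : ℤ) + b i)) =
      (rts a b n).biUnion (fun x => (Icc 1 X).filter (fun y : ℕ => (y : ZMod n) = x)) := by
    ext y
    simp only [mem_filter, mem_biUnion, rts, mem_univ, true_and]
    constructor
    · rintro ⟨hy, hd⟩
      refine ⟨(y : ZMod n), ?_, hy, rfl⟩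
      have := (val_zmod a b n y).2 hd
      simpa using this
    · rintro ⟨x, hx, hy, rfl⟩
      refine ⟨hy, (val_zmod a b n y).1 ?_⟩
      simpa using hx
  rw [h1, card_biUnion]
  · rw [nu_eq]
    push_cast
    have h2 : (∑ x ∈ rts a b n, (((Icc 1 X).filter (fun y : ℕ => (y : ZMod n) = x)).card : ℝ)) -
        X * (((rts a b n).card : ℝ) / n) =
        ∑ x ∈ rts a b n, ((((Icc 1 X).filter (fun y : ℕ => (y : ZMod n) = x)).card : ℝ) - X / n) := by
      rw [sum_sub_distrib, sum_const, nsmul_eq_mul]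
      ring
    rw [h2]
    refine (abs_sum_le_sum_abs _ _).trans ?_
    refine (sum_le_sum fun x _ => card_class n X hn x).trans ?_
    rw [sum_const, nsmul_eq_mul, mul_one]
    have := (card_le_univ (rts a b n)).trans (ZMod.card n).le
    exact_mod_cast this
  · intro x _ x' _ hxx'
    rw [Function.onFun, disjoint_left]
    intro y hy hy'
    exact hxx' ((mem_filter.1 hy).2.symm.trans (mem_filter.1 hy').2)

end SieveM

open SieveM

theorem specSieveK : SpecSieveK := by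
  classical
  intro k
  -- choose `b`
  obtain ⟨b, hb⟩ : ∃ b : ℕ, Mk k * Real.exp (-(b : ℝ)) ≤ 1 / 2 := by
    have hM : 0 < Mk k := Real.exp_pos _
    obtain ⟨b, hb⟩ := exists_nat_ge (2 * Mk k)
    refine ⟨b, ?_⟩
    rw [Real.exp_neg]
    have h1 : 2 * Mk k ≤ Real.exp b := hb.trans (by linarith [Real.add_one_le_exp (b : ℝ)])
    rw [mul_inv_le_iff₀ (Real.exp_pos _)]
    linarith
  set c := 8 * k * (k + 1) with hc
  refine ⟨20 + 3 * c + 16 * b + 32, ?_⟩
  intro a b' z X hz hzX hadm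
  set C := 20 + 3 * c + 16 * b + 32 with hC
  have hz0 : (0 : ℝ) < z := by linarith
  have hz1 : (1 : ℝ) ≤ z := by linarith
  have hlog0 : 0 ≤ Real.log z := Real.log_nonneg hz1
  have hlogz : 1 + Real.log z ≤ z := by linarith [Real.log_le_sub_one_of_pos hz0]
  set g : ℕ → ℝ := fun p => if (p : ℝ) < z then (nu a b' p : ℝ) / p else 0 with hg
  have hgD : Dens k g := by
    intro p hp
    have hp0 : (0 : ℝ) < p := by exact_mod_cast hp.pos
    have hk0 : (0 : ℝ) ≤ k := Nat.cast_nonneg _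
    rw [hg]
    simp only
    by_cases hpz : (p : ℝ) < z
    · rw [if_pos hpz]
      obtain ⟨h1, h2⟩ := nu_prime a b' hp (hadm p hp hpz)
      have h1' : (nu a b' p : ℝ) ≤ k := by exact_mod_cast h1
      have h2' : (nu a b' p : ℝ) + 1 ≤ p := by exact_mod_cast h2
      refine ⟨by positivity, div_le_div_of_nonneg_right h1' hp0.le, ?_⟩
      rw [div_le_div_iff₀ hp0 (by linarith)]
      rcases le_total (p : ℝ) (k + 1) with h3 | h3
      · nlinarith
      · nlinarith [Nat.cast_nonneg (α := ℝ) (nu a b' p)]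
    · rw [if_neg hpz]
      refine ⟨le_refl _, by positivity, by positivity⟩
  set v : ℕ → ℕ := fun y => (∏ i, (a i * (y : ℤ) + b' i)).natAbs with hv
  have hdv : ∀ (d y : ℕ), d ∣ v y ↔ (d : ℤ) ∣ ∏ i, (a i * (y : ℤ) + b' i) := by
    intro d y
    rw [hv]
    exact Int.natCast_dvd.symm
  have hfl := flk k b hb z hz (Icc 1 X) v (fun _ => 1) X g (Nat.cast_nonneg _)
    (fun _ _ => zero_le_one) hgD
  have hpr := prod_ge k hz hgD
  rw [← hc] at hpr
  set PG := ∏ p ∈ PB z, (1 - g p) with hPG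
  have hPG0 : 0 ≤ PG := by
    refine prod_nonneg fun p hp => ?_
    have h1 := (hgD p (mem_PB.1 hp).1).2.2
    have hk0 : (0 : ℝ) ≤ k := Nat.cast_nonneg _
    have h2 : (k : ℝ) / (k + 1) ≤ 1 := by rw [div_le_one (by linarith)]; linarith
    linarith
  -- the count
  have hcount : ∑ i ∈ Icc 1 X, (1 : ℝ) * rInd z (v i) = (((Icc 1 X).filter (fun y : ℕ => ∀ p : ℕ,
      p.Prime → (p : ℝ) < z → ¬ (p : ℤ) ∣ ∏ i, (a i * (y : ℤ) + b' i))).card : ℝ) := by
    rw [card_filter]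
    push_cast
    refine sum_congr rfl fun y _ => ?_
    unfold rInd
    rw [one_mul]
    congr 1
    unfold Rough
    refine propext ⟨fun h p hp hpz hd => ?_, fun h p hp hd => ?_⟩
    · exact absurd (h p hp ((hdv p y).2 hd)) (not_le.2 hpz)
    · by_contra hcon
      exact h p hp (not_le.1 hcon) ((hdv p y).1 hd)
  rw [hcount] at hfl
  set cnt := (((Icc 1 X).filter (fun y : ℕ => ∀ p : ℕ,
      p.Prime → (p : ℝ) < z → ¬ (p : ℤ) ∣ ∏ i, (a i * (y : ℤ) + b' i))).card : ℝ) with hcnt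
  -- the remainders
  have hrem : ∑ δ ∈ (Icc 1 ⌊z ^ (8 * b + 16)⌋₊).filter
      (fun δ => Squarefree δ ∧ ∀ p : ℕ, p.Prime → p ∣ δ → (p : ℝ) < z),
      |(∑ i ∈ (Icc 1 X).filter (fun i => δ ∣ v i), (1 : ℝ)) - X * ∏ p ∈ δ.primeFactors, g p| ≤
      z ^ (16 * b + 32) := by
    have h1 : ∀ δ ∈ (Icc 1 ⌊z ^ (8 * b + 16)⌋₊).filter
        (fun δ => Squarefree δ ∧ ∀ p : ℕ, p.Prime → p ∣ δ → (p : ℝ) < z),
        |(∑ i ∈ (Icc 1 X).filter (fun i => δ ∣ v i), (1 : ℝ)) - X * ∏ p ∈ δ.primeFactors, g p| ≤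
        z ^ (8 * b + 16) := by
      intro δ hδ
      rw [mem_filter, mem_Icc] at hδ
      obtain ⟨⟨hδ1, hδ2⟩, hsq, hpz⟩ := hδ
      have h2 : ∏ p ∈ δ.primeFactors, g p = (nu a b' δ : ℝ) / δ := by
        have h3 : ∏ p ∈ δ.primeFactors, g p = ∏ p ∈ δ.primeFactors, ((nu a b' p : ℝ) / p) := by
          refine prod_congr rfl fun p hp => ?_
          rw [hg]
          simp only
          rw [if_pos (hpz p (Nat.prime_of_mem_primeFactors hp) (Nat.dvd_of_mem_primeFactors hp))]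
        rw [h3, prod_div_distrib]
        congr 1
        · rw [nu_squarefree a b' hsq]
          push_cast
          rfl
        · rw [← Nat.cast_prod, Nat.prod_primeFactors_of_squarefree hsq]
      have h3 : (∑ i ∈ (Icc 1 X).filter (fun i => δ ∣ v i), (1 : ℝ)) =
          (((Icc 1 X).filter (fun y : ℕ => (δ : ℤ) ∣ ∏ i, (a i * (y : ℤ) + b' i))).card : ℝ) := by
        rw [sum_const, nsmul_eq_mul, mul_one]
        congr 2
        refine filter_congr fun y _ => ?_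
        exact hdv δ y
      rw [h2, h3]
      refine (card_roots a b' δ X (by omega)).trans ?_
      exact (Nat.cast_le.2 hδ2).trans (Nat.floor_le (by positivity))
    refine (sum_le_sum h1).trans ?_
    rw [sum_const, nsmul_eq_mul]
    have h2 : (((Icc 1 ⌊z ^ (8 * b + 16)⌋₊).filter
        (fun δ => Squarefree δ ∧ ∀ p : ℕ, p.Prime → p ∣ δ → (p : ℝ) < z)).card : ℝ) ≤
        z ^ (8 * b + 16) := by
      have h3 : ((Icc 1 ⌊z ^ (8 * b + 16)⌋₊).filter
        (fun δ => Squarefree δ ∧ ∀ p : ℕ, p.Prime → p ∣ δ → (p : ℝ) < z)).card ≤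
          ⌊z ^ (8 * b + 16)⌋₊ := by
        refine (card_filter_le _ _).trans ?_
        rw [Nat.card_Icc]
        omega
      exact (Nat.cast_le.2 h3).trans (Nat.floor_le (by positivity))
    calc _ ≤ z ^ (8 * b + 16) * z ^ (8 * b + 16) :=
          mul_le_mul_of_nonneg_right h2 (by positivity)
      _ = z ^ (16 * b + 32) := by rw [← pow_add]; congr 1; ring
  set Rem := ∑ δ ∈ (Icc 1 ⌊z ^ (8 * b + 16)⌋₊).filter
      (fun δ => Squarefree δ ∧ ∀ p : ℕ, p.Prime → p ∣ δ → (p : ℝ) < z),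
      |(∑ i ∈ (Icc 1 X).filter (fun i => δ ∣ v i), (1 : ℝ)) - X * ∏ p ∈ δ.primeFactors, g p|
  -- numbers
  set L := 4 * (1 + Real.log z) with hL
  have hL1 : 1 ≤ L := by rw [hL]; linarith
  have hLz : L ≤ z ^ 3 := by
    rw [hL]
    have : 4 ≤ z ^ 2 := by nlinarith
    calc 4 * (1 + Real.log z) ≤ z ^ 2 * z := mul_le_mul this hlogz (by linarith) (by positivity)
      _ = z ^ 3 := by ring
  have hX4 : 8 * (1 + Real.log z) * z ^ (16 * b + 32) * L ^ c ≤ X := by
    refine le_trans ?_ hzX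
    have h1 : 8 * (1 + Real.log z) ≤ z ^ 4 := by
      have : 8 ≤ z ^ 3 := by
        have := pow_le_pow_left₀ (by norm_num : (0 : ℝ) ≤ 2) hz 3
        linarith
      calc 8 * (1 + Real.log z) ≤ z ^ 3 * z := mul_le_mul this hlogz (by linarith) (by positivity)
        _ = z ^ 4 := by ring
    have h2 : L ^ c ≤ z ^ (3 * c) := by
      have h3 := pow_le_pow_left₀ (by linarith) hLz c
      rwa [← pow_mul] at h3
    calc 8 * (1 + Real.log z) * z ^ (16 * b + 32) * L ^ c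
        ≤ z ^ 4 * z ^ (16 * b + 32) * z ^ (3 * c) := by
          refine mul_le_mul (mul_le_mul_of_nonneg_right h1 (by positivity)) h2 (by positivity)
            (by positivity)
      _ = z ^ (4 + (16 * b + 32) + 3 * c) := by rw [← pow_add, ← pow_add]
      _ ≤ z ^ C := pow_le_pow_right₀ hz1 (by omega)
  have hLc : 0 < L ^ c := by positivity
  -- `X ≤ 4 L^c cnt`
  have hmain : (X : ℝ) ≤ 4 * L ^ c * cnt := by
    have h1 : 2 * (1 + Real.log z) * Rem ≤ 2 * (1 + Real.log z) * z ^ (16 * b + 32) :=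
      mul_le_mul_of_nonneg_left hrem (by linarith)
    have h2 : 1 / 2 * (X : ℝ) * PG - 2 * (1 + Real.log z) * z ^ (16 * b + 32) ≤ cnt := by
      linarith
    have h3 : (X : ℝ) ≤ X * (L ^ c * PG) := by
      have hX0 : (0 : ℝ) ≤ X := Nat.cast_nonneg _
      nlinarith
    have h4 : L ^ c * (1 / 2 * (X : ℝ) * PG - 2 * (1 + Real.log z) * z ^ (16 * b + 32)) ≤
        L ^ c * cnt := mul_le_mul_of_nonneg_left h2 hLc.le
    have h5 : L ^ c * (2 * (1 + Real.log z) * z ^ (16 * b + 32)) ≤ (X : ℝ) / 4 := by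
      have : L ^ c * (2 * (1 + Real.log z) * z ^ (16 * b + 32)) =
        (8 * (1 + Real.log z) * z ^ (16 * b + 32) * L ^ c) / 4 := by ring
      rw [this]
      linarith
    nlinarith
  have hcnt0 : 0 ≤ cnt := Nat.cast_nonneg _
  refine hmain.trans (mul_le_mul_of_nonneg_right ?_ hcnt0)
  have hCR : (4 : ℝ) ≤ (C : ℝ) := by
    have : 4 ≤ C := by omega
    exact_mod_cast this
  have h1 : L ≤ (C : ℝ) * (1 + Real.log z) := by
    rw [hL]
    exact mul_le_mul_of_nonneg_right hCR (by linarith)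
  have h4L : (4 : ℝ) ≤ (C : ℝ) * (1 + Real.log z) := by nlinarith
  have h1' : 1 ≤ (C : ℝ) * (1 + Real.log z) := by linarith
  calc 4 * L ^ c ≤ ((C : ℝ) * (1 + Real.log z)) * ((C : ℝ) * (1 + Real.log z)) ^ c :=
        mul_le_mul h4L (pow_le_pow_left₀ (by linarith) h1 c) hLc.le (by linarith)
    _ = ((C : ℝ) * (1 + Real.log z)) ^ (c + 1) := by rw [pow_succ]; ring
    _ ≤ _ := pow_le_pow_right₀ h1' (by omega)

end Pool.Agent.Lib.MP_3efbeb_nt.SV
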