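import Pool.Agent.Lib.MP_3efbeb_nt.SV.Sieve

/-!
# A uniform lower bound sieve for the values of an integer polynomial (Brun-Hooley)

`specSieveP`: for every `k` there is `C` such that for all integer polynomials `F` of degree at most `k` (no bound on the
coefficients), all real `z ≥ 2` and all `X ≥ z ^ C`: if for every prime `p < z` some `y` has `p ∤ F(y)`, then at least
`X / (C (1 + log z)) ^ C` of the `1 ≤ y ≤ X` are such that `F(y)` has no prime factor `< z`.
(helper66, after the proof of `specSieveK` for linear forms.)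
-/

set_option autoImplicit false

namespace Pool.Agent.Lib.MP_3efbeb_nt.SV

open Finset
open scoped Classical
open Pool.Agent.Lib.MP391708.QPA (PB Rough rInd)
open Pool.Agent.Lib.MP391708.QPA.FL

/-- The statement of the sieve. -/
def SpecSieveP : Prop := ∀ k : ℕ, ∃ C : ℕ, ∀ (F : Polynomial ℤ) (z : ℝ) (X : ℕ), F.natDegree ≤ k → 2 ≤ z →
  z ^ C ≤ (X : ℝ) →
  (∀ p : ℕ, p.Prime → (p : ℝ) < z → ∃ y : ℤ, ¬ (p : ℤ) ∣ F.eval y) →
  (X : ℝ) ≤ (C * (1 + Real.log z)) ^ C * (((Icc 1 X).filter (fun y : ℕ => ∀ p : ℕ, p.Prime →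
    (p : ℝ) < z → ¬ (p : ℤ) ∣ F.eval (y : ℤ))).card : ℝ)

namespace SievePM

open SieveM (Mk flk Dens prod_ge card_class)

/-! ## Roots of the polynomial -/

/-- the value of the polynomial in a commutative ring -/
noncomputable def val (F : Polynomial ℤ) {R : Type*} [CommRing R] (x : R) : R :=
  F.eval₂ (Int.castRingHom R) x

lemma val_int (F : Polynomial ℤ) (y : ℤ) : val F y = F.eval y := by
  unfold val
  rw [Polynomial.eval, RingHom.eq_intCast' (RingHom.id ℤ)]

lemma map_val (F : Polynomial ℤ) {R R' : Type*} [CommRing R] [CommRing R'] (f : R →+* R')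
    (x : R) : f (val F x) = val F (f x) := by
  unfold val
  rw [Polynomial.hom_eval₂]
  congr 1
  exact RingHom.ext_int _ _

/-- the roots modulo `n` -/
noncomputable def rts (F : Polynomial ℤ) (n : ℕ) [NeZero n] : Finset (ZMod n) :=
  Finset.univ.filter (fun x => val F x = 0)

/-- the number of roots -/
noncomputable def nu (F : Polynomial ℤ) (n : ℕ) : ℕ :=
  Nat.card {x : ZMod n // val F x = 0}

lemma nu_eq (F : Polynomial ℤ) (n : ℕ) [NeZero n] : nu F n = (rts F n).card := by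
  unfold nu rts
  rw [Nat.card_eq_fintype_card, Fintype.card_subtype]

lemma nu_one (F : Polynomial ℤ) : nu F 1 = 1 := by
  rw [nu_eq]
  have : rts F 1 = Finset.univ := by
    ext x
    simp only [rts, mem_filter, mem_univ, true_and, iff_true]
    exact Subsingleton.elim _ _
  rw [this]
  rfl

lemma nu_mul (F : Polynomial ℤ) {m n : ℕ} (h : Nat.Coprime m n) :
    nu F (m * n) = nu F m * nu F n := by
  unfold nu
  rw [← Nat.card_prod]
  let e := ZMod.chineseRemainder h
  refine Nat.card_congr ⟨fun x => (⟨(e x.1).1, ?_⟩, ⟨(e x.1).2, ?_⟩),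
    fun x => ⟨e.symm (x.1.1, x.2.1), ?_⟩, ?_, ?_⟩
  · have h1 := map_val F ((RingHom.fst _ _).comp e.toRingHom) x.1
    rw [x.2, map_zero] at h1
    exact h1.symm
  · have h1 := map_val F ((RingHom.snd _ _).comp e.toRingHom) x.1
    rw [x.2, map_zero] at h1
    exact h1.symm
  · have h1 := map_val F e.symm.toRingHom (x.1.1, x.2.1)
    have h2 : val F (x.1.1, x.2.1) = 0 := by
      ext
      · have h3 := map_val F (RingHom.fst (ZMod m) (ZMod n)) (x.1.1, x.2.1)
        simp only [RingHom.coe_fst] at h3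
        rw [h3, x.1.2]
        rfl
      · have h3 := map_val F (RingHom.snd (ZMod m) (ZMod n)) (x.1.1, x.2.1)
        simp only [RingHom.coe_snd] at h3
        rw [h3, x.2.2]
        rfl
    rw [h2, map_zero] at h1
    exact h1.symm
  · intro x
    ext
    simp
  · intro x
    ext <;> simp

lemma nu_squarefree (F : Polynomial ℤ) {n : ℕ} (hn : Squarefree n) :
    nu F n = ∏ p ∈ n.primeFactors, nu F p := by
  induction n using Nat.recOnPosPrimePosCoprime with
  | prime_pow p m hp hm =>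
    have : m = 1 := by
      by_contra hne
      have h2 : 2 ≤ m := by omega
      have h3 : p * p ∣ p ^ m := by
        rw [← sq]
        exact pow_dvd_pow p h2
      exact hp.one_lt.ne' (Nat.isUnit_iff.1 (hn p h3))
    subst this
    rw [pow_one, hp.primeFactors, prod_singleton]
  | zero => exact absurd hn not_squarefree_zero
  | one => rw [nu_one]; simp
  | coprime m n hm hn' hmn ihm ihn =>
    have h1 := Nat.squarefree_mul hmn |>.1 hn
    rw [nu_mul F hmn, ihm h1.1, ihn h1.2, Nat.Coprime.primeFactors_mul hmn,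
      prod_union hmn.disjoint_primeFactors]

lemma nu_le (F : Polynomial ℤ) {n : ℕ} (hn : 0 < n) : nu F n ≤ n := by
  have : NeZero n := ⟨hn.ne'⟩
  rw [nu_eq]
  refine (card_le_univ _).trans ?_
  rw [ZMod.card]

lemma val_zmod (F : Polynomial ℤ) (n : ℕ) (y : ℤ) :
    val F (y : ZMod n) = 0 ↔ (n : ℤ) ∣ F.eval y := by
  have h := map_val F (Int.castRingHom (ZMod n)) y
  simp only [eq_intCast] at h
  rw [← h, val_int, ZMod.intCast_zmod_eq_zero_iff_dvd]

lemma nu_prime (F : Polynomial ℤ) {k : ℕ} (hk : F.natDegree ≤ k) {p : ℕ} (hp : p.Prime)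
    (h : ∃ y : ℤ, ¬ (p : ℤ) ∣ F.eval y) : nu F p ≤ k ∧ nu F p + 1 ≤ p := by
  have : Fact p.Prime := ⟨hp⟩
  have : NeZero p := ⟨hp.ne_zero⟩
  obtain ⟨y, hy⟩ := h
  have hy' : val F (y : ZMod p) ≠ 0 := fun h => hy ((val_zmod F p y).1 h)
  rw [nu_eq]
  constructor
  · have hsub : rts F p ⊆ (F.map (Int.castRingHom (ZMod p))).roots.toFinset := by
      intro x hx
      have hx' : val F x = 0 := (mem_filter.1 hx).2
      unfold val at hx' hy'
      rw [Multiset.mem_toFinset, Polynomial.mem_roots', Polynomial.IsRoot, Polynomial.eval_map]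
      refine ⟨fun h0 => hy' ?_, hx'⟩
      rw [← Polynomial.eval_map, h0, Polynomial.eval_zero]
    refine (card_le_card hsub).trans ((Multiset.toFinset_card_le _).trans ?_)
    exact (Polynomial.card_roots' _).trans (Polynomial.natDegree_map_le.trans hk)
  · have hsub : rts F p ⊆ Finset.univ.erase (y : ZMod p) := by
      intro x hx
      rw [mem_erase]
      refine ⟨?_, mem_univ x⟩
      rintro rfl
      exact hy' (mem_filter.1 hx).2
    have := card_le_card hsub
    rw [card_erase_of_mem (mem_univ _), card_univ, ZMod.card] at this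
    have := hp.one_lt
    omega

lemma card_roots (F : Polynomial ℤ) (n X : ℕ) (hn : 0 < n) :
    |(((Icc 1 X).filter (fun y : ℕ => (n : ℤ) ∣ F.eval (y : ℤ))).card : ℝ) -
      X * ((nu F n : ℝ) / n)| ≤ n := by
  have : NeZero n := ⟨hn.ne'⟩
  have h1 : (Icc 1 X).filter (fun y : ℕ => (n : ℤ) ∣ F.eval (y : ℤ)) =
      (rts F n).biUnion (fun x => (Icc 1 X).filter (fun y : ℕ => (y : ZMod n) = x)) := by
    ext y
    simp only [mem_filter, mem_biUnion, rts, mem_univ, true_and]
    constructor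
    · rintro ⟨hy, hd⟩
      refine ⟨(y : ZMod n), ?_, hy, rfl⟩
      have := (val_zmod F n y).2 hd
      simpa using this
    · rintro ⟨x, hx, hy, rfl⟩
      refine ⟨hy, (val_zmod F n y).1 ?_⟩
      simpa using hx
  rw [h1, card_biUnion]
  · rw [nu_eq]
    push_cast
    have h2 : (∑ x ∈ rts F n, (((Icc 1 X).filter (fun y : ℕ => (y : ZMod n) = x)).card : ℝ)) -
        X * (((rts F n).card : ℝ) / n) =
        ∑ x ∈ rts F n, ((((Icc 1 X).filter (fun y : ℕ => (y : ZMod n) = x)).card : ℝ) - X / n) := by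
      rw [sum_sub_distrib, sum_const, nsmul_eq_mul]
      ring
    rw [h2]
    refine (abs_sum_le_sum_abs _ _).trans ?_
    refine (sum_le_sum fun x _ => card_class n X hn x).trans ?_
    rw [sum_const, nsmul_eq_mul, mul_one]
    have := (card_le_univ (rts F n)).trans (ZMod.card n).le
    exact_mod_cast this
  · intro x _ x' _ hxx'
    rw [Function.onFun, disjoint_left]
    intro y hy hy'
    exact hxx' ((mem_filter.1 hy).2.symm.trans (mem_filter.1 hy').2)

end SievePM

open SievePM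
open SieveM (Mk flk Dens prod_ge)

theorem specSieveP : SpecSieveP := by
  classical
  intro k
  -- choose `b`
  obtain ⟨b, hb⟩ : ∃ b : ℕ, Mk k * Real.exp (-(b : ℝ)) ≤ 1 / 2 := by
    have hM : 0 < Mk k := Real.exp_pos _
    obtain ⟨b, hb⟩ := exists_nat_ge (2 * Mk k)
    refine ⟨b, ?_⟩
    rw [Real.exp_neg]
    have h1 : 2 * Mk k ≤ Real.exp b := hb.trans (by linarith [Real.add_one_le_exp (b : ℝ)])
    rw [mul_inv_le_iff₀ (Real.exp_pos _)]
    linarith
  set c := 8 * k * (k + 1) with hc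
  refine ⟨20 + 3 * c + 16 * b + 32, ?_⟩
  intro F z X hdeg hz hzX hadm
  set C := 20 + 3 * c + 16 * b + 32 with hC
  have hz0 : (0 : ℝ) < z := by linarith
  have hz1 : (1 : ℝ) ≤ z := by linarith
  have hlog0 : 0 ≤ Real.log z := Real.log_nonneg hz1
  have hlogz : 1 + Real.log z ≤ z := by linarith [Real.log_le_sub_one_of_pos hz0]
  set g : ℕ → ℝ := fun p => if (p : ℝ) < z then (nu F p : ℝ) / p else 0 with hg
  have hgD : Dens k g := by
    intro p hp
    have hp0 : (0 : ℝ) < p := by exact_mod_cast hp.pos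
    have hk0 : (0 : ℝ) ≤ k := Nat.cast_nonneg _
    rw [hg]
    simp only
    by_cases hpz : (p : ℝ) < z
    · rw [if_pos hpz]
      obtain ⟨h1, h2⟩ := nu_prime F hdeg hp (hadm p hp hpz)
      have h1' : (nu F p : ℝ) ≤ k := by exact_mod_cast h1
      have h2' : (nu F p : ℝ) + 1 ≤ p := by exact_mod_cast h2
      refine ⟨by positivity, div_le_div_of_nonneg_right h1' hp0.le, ?_⟩
      rw [div_le_div_iff₀ hp0 (by linarith)]
      rcases le_total (p : ℝ) (k + 1) with h3 | h3
      · nlinarith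
      · nlinarith [Nat.cast_nonneg (α := ℝ) (nu F p)]
    · rw [if_neg hpz]
      refine ⟨le_refl _, by positivity, by positivity⟩
  set v : ℕ → ℕ := fun y => (F.eval (y : ℤ)).natAbs with hv
  have hdv : ∀ (d y : ℕ), d ∣ v y ↔ (d : ℤ) ∣ F.eval (y : ℤ) := by
    intro d y
    rw [hv]
    exact Int.natCast_dvd.symm
  have hfl := flk k b hb z hz (Icc 1 X) v (fun _ => 1) X g (Nat.cast_nonneg _)
    (fun _ _ => zero_le_one) hgD
  have hpr := prod_ge k hz hgD
  rw [← hc] at hpr
  set PG := ∏ p ∈ PB z, (1 - g p) with hPG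
  have hPG0 : 0 ≤ PG := by
    refine prod_nonneg fun p hp => ?_
    have h1 := (hgD p (mem_PB.1 hp).1).2.2
    have hk0 : (0 : ℝ) ≤ k := Nat.cast_nonneg _
    have h2 : (k : ℝ) / (k + 1) ≤ 1 := by rw [div_le_one (by linarith)]; linarith
    linarith
  -- the count
  have hcount : ∑ i ∈ Icc 1 X, (1 : ℝ) * rInd z (v i) = (((Icc 1 X).filter (fun y : ℕ => ∀ p : ℕ,
      p.Prime → (p : ℝ) < z → ¬ (p : ℤ) ∣ F.eval (y : ℤ))).card : ℝ) := by
    rw [card_filter]
    push_cast
    refine sum_congr rfl fun y _ => ?_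
    unfold rInd
    rw [one_mul]
    congr 1
    unfold Rough
    refine propext ⟨fun h p hp hpz hd => ?_, fun h p hp hd => ?_⟩
    · exact absurd (h p hp ((hdv p y).2 hd)) (not_le.2 hpz)
    · by_contra hcon
      exact h p hp (not_le.1 hcon) ((hdv p y).1 hd)
  rw [hcount] at hfl
  set cnt := (((Icc 1 X).filter (fun y : ℕ => ∀ p : ℕ,
      p.Prime → (p : ℝ) < z → ¬ (p : ℤ) ∣ F.eval (y : ℤ))).card : ℝ) with hcnt
  -- the remainders
  have hrem : ∑ δ ∈ (Icc 1 ⌊z ^ (8 * b + 16)⌋₊).filter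
      (fun δ => Squarefree δ ∧ ∀ p : ℕ, p.Prime → p ∣ δ → (p : ℝ) < z),
      |(∑ i ∈ (Icc 1 X).filter (fun i => δ ∣ v i), (1 : ℝ)) - X * ∏ p ∈ δ.primeFactors, g p| ≤
      z ^ (16 * b + 32) := by
    have h1 : ∀ δ ∈ (Icc 1 ⌊z ^ (8 * b + 16)⌋₊).filter
        (fun δ => Squarefree δ ∧ ∀ p : ℕ, p.Prime → p ∣ δ → (p : ℝ) < z),
        |(∑ i ∈ (Icc 1 X).filter (fun i => δ ∣ v i), (1 : ℝ)) - X * ∏ p ∈ δ.primeFactors, g p| ≤
        z ^ (8 * b + 16) := by
      intro δ hδ
      rw [mem_filter, mem_Icc] at hδ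
      obtain ⟨⟨hδ1, hδ2⟩, hsq, hpz⟩ := hδ
      have h2 : ∏ p ∈ δ.primeFactors, g p = (nu F δ : ℝ) / δ := by
        have h3 : ∏ p ∈ δ.primeFactors, g p = ∏ p ∈ δ.primeFactors, ((nu F p : ℝ) / p) := by
          refine prod_congr rfl fun p hp => ?_
          rw [hg]
          simp only
          rw [if_pos (hpz p (Nat.prime_of_mem_primeFactors hp) (Nat.dvd_of_mem_primeFactors hp))]
        rw [h3, prod_div_distrib]
        congr 1
        · rw [nu_squarefree F hsq]
          push_cast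
          rfl
        · rw [← Nat.cast_prod, Nat.prod_primeFactors_of_squarefree hsq]
      have h3 : (∑ i ∈ (Icc 1 X).filter (fun i => δ ∣ v i), (1 : ℝ)) =
          (((Icc 1 X).filter (fun y : ℕ => (δ : ℤ) ∣ F.eval (y : ℤ))).card : ℝ) := by
        rw [sum_const, nsmul_eq_mul, mul_one]
        congr 2
        refine filter_congr fun y _ => ?_
        exact hdv δ y
      rw [h2, h3]
      refine (card_roots F δ X (by omega)).trans ?_
      exact (Nat.cast_le.2 hδ2).trans (Nat.floor_le (by positivity))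
    refine (sum_le_sum h1).trans ?_
    rw [sum_const, nsmul_eq_mul]
    have h2 : (((Icc 1 ⌊z ^ (8 * b + 16)⌋₊).filter
        (fun δ => Squarefree δ ∧ ∀ p : ℕ, p.Prime → p ∣ δ → (p : ℝ) < z)).card : ℝ) ≤
        z ^ (8 * b + 16) := by
      have h3 : ((Icc 1 ⌊z ^ (8 * b + 16)⌋₊).filter
        (fun δ => Squarefree δ ∧ ∀ p : ℕ, p.Prime → p ∣ δ → (p : ℝ) < z)).card ≤
          ⌊z ^ (8 * b + 16)⌋₊ := by
        refine (card_filter_le _ _).trans ?_
        rw [Nat.card_Icc]
        omega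
      exact (Nat.cast_le.2 h3).trans (Nat.floor_le (by positivity))
    calc _ ≤ z ^ (8 * b + 16) * z ^ (8 * b + 16) :=
          mul_le_mul_of_nonneg_right h2 (by positivity)
      _ = z ^ (16 * b + 32) := by rw [← pow_add]; congr 1; ring
  set Rem := ∑ δ ∈ (Icc 1 ⌊z ^ (8 * b + 16)⌋₊).filter
      (fun δ => Squarefree δ ∧ ∀ p : ℕ, p.Prime → p ∣ δ → (p : ℝ) < z),
      |(∑ i ∈ (Icc 1 X).filter (fun i => δ ∣ v i), (1 : ℝ)) - X * ∏ p ∈ δ.primeFactors, g p|
  -- numbers
  set L := 4 * (1 + Real.log z) with hL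
  have hL1 : 1 ≤ L := by rw [hL]; linarith
  have hLz : L ≤ z ^ 3 := by
    rw [hL]
    have : 4 ≤ z ^ 2 := by nlinarith
    calc 4 * (1 + Real.log z) ≤ z ^ 2 * z := mul_le_mul this hlogz (by linarith) (by positivity)
      _ = z ^ 3 := by ring
  have hX4 : 8 * (1 + Real.log z) * z ^ (16 * b + 32) * L ^ c ≤ X := by
    refine le_trans ?_ hzX
    have h1 : 8 * (1 + Real.log z) ≤ z ^ 4 := by
      have : 8 ≤ z ^ 3 := by
        have := pow_le_pow_left₀ (by norm_num : (0 : ℝ) ≤ 2) hz 3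
        linarith
      calc 8 * (1 + Real.log z) ≤ z ^ 3 * z := mul_le_mul this hlogz (by linarith) (by positivity)
        _ = z ^ 4 := by ring
    have h2 : L ^ c ≤ z ^ (3 * c) := by
      have h3 := pow_le_pow_left₀ (by linarith) hLz c
      rwa [← pow_mul] at h3
    calc 8 * (1 + Real.log z) * z ^ (16 * b + 32) * L ^ c
        ≤ z ^ 4 * z ^ (16 * b + 32) * z ^ (3 * c) := by
          refine mul_le_mul (mul_le_mul_of_nonneg_right h1 (by positivity)) h2 (by positivity)
            (by positivity)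
      _ = z ^ (4 + (16 * b + 32) + 3 * c) := by rw [← pow_add, ← pow_add]
      _ ≤ z ^ C := pow_le_pow_right₀ hz1 (by omega)
  have hLc : 0 < L ^ c := by positivity
  -- `X ≤ 4 L^c cnt`
  have hmain : (X : ℝ) ≤ 4 * L ^ c * cnt := by
    have h1 : 2 * (1 + Real.log z) * Rem ≤ 2 * (1 + Real.log z) * z ^ (16 * b + 32) :=
      mul_le_mul_of_nonneg_left hrem (by linarith)
    have h2 : 1 / 2 * (X : ℝ) * PG - 2 * (1 + Real.log z) * z ^ (16 * b + 32) ≤ cnt := by
      linarith
    have h3 : (X : ℝ) ≤ X * (L ^ c * PG) := by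
      have hX0 : (0 : ℝ) ≤ X := Nat.cast_nonneg _
      nlinarith
    have h4 : L ^ c * (1 / 2 * (X : ℝ) * PG - 2 * (1 + Real.log z) * z ^ (16 * b + 32)) ≤
        L ^ c * cnt := mul_le_mul_of_nonneg_left h2 hLc.le
    have h5 : L ^ c * (2 * (1 + Real.log z) * z ^ (16 * b + 32)) ≤ (X : ℝ) / 4 := by
      have : L ^ c * (2 * (1 + Real.log z) * z ^ (16 * b + 32)) =
        (8 * (1 + Real.log z) * z ^ (16 * b + 32) * L ^ c) / 4 := by ring
      rw [this]
      linarith
    nlinarith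
  have hcnt0 : 0 ≤ cnt := Nat.cast_nonneg _
  refine hmain.trans (mul_le_mul_of_nonneg_right ?_ hcnt0)
  have hCR : (4 : ℝ) ≤ (C : ℝ) := by
    have : 4 ≤ C := by omega
    exact_mod_cast this
  have h1 : L ≤ (C : ℝ) * (1 + Real.log z) := by
    rw [hL]
    exact mul_le_mul_of_nonneg_right hCR (by linarith)
  have h4L : (4 : ℝ) ≤ (C : ℝ) * (1 + Real.log z) := by nlinarith
  have h1' : 1 ≤ (C : ℝ) * (1 + Real.log z) := by linarith
  calc 4 * L ^ c ≤ ((C : ℝ) * (1 + Real.log z)) * ((C : ℝ) * (1 + Real.log z)) ^ c :=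
        mul_le_mul h4L (pow_le_pow_left₀ (by linarith) h1 c) hLc.le (by linarith)
    _ = ((C : ℝ) * (1 + Real.log z)) ^ (c + 1) := by rw [pow_succ]; ring
    _ ≤ _ := pow_le_pow_right₀ h1' (by omega)

end Pool.Agent.Lib.MP_3efbeb_nt.SV
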